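import Pool.Agent.H61.HB.Stmts4

/-!
# Row FSA of the board `fnd`
-/

set_option autoImplicit false

namespace HB

theorem fsa_sq_car (n : ℕ) (i : Fin 4) : √(sq (car ((n : ℤ) ^ 2) i)) = (n : ℝ) ^ 2 := by
  have h : sq (car ((n : ℤ) ^ 2) i) = ((n : ℝ) ^ 2) ^ 2 := by
    fin_cases i <;> simp [sq, car, dir, sgn]
  rw [h]
  exact Real.sqrt_sq (by positivity)

theorem fsa_pro (ν : ℝ) (p : V) (hp : Rl p) (i : Fin 4) (j : Fin 2) (a : Z2) :
    pro ν p (opp i) j (-a) = (starRingEnd ℂ) (pro ν p i j a) := by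
  have hd : dir (opp i) = dir i := by fin_cases i <;> rfl
  have hs : sgn (opp i) = -sgn i := by fin_cases i <;> rfl
  unfold pro
  rw [hd, hs]
  by_cases h : j = dir i
  · rw [if_pos h, if_pos h]
    by_cases h0 : a = 0
    · rw [if_pos h0, if_pos (by rw [h0, neg_zero])]
      rw [map_mul, map_mul, Complex.conj_I, Complex.conj_ofReal]
      push_cast
      rw [map_intCast]
      ring
    · rw [if_neg h0, if_neg (fun h => h0 (neg_eq_zero.1 h)), map_zero]
  · rw [if_neg h, if_neg h]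
    exact hp j a

theorem fsa_car (N : ℤ) (i : Fin 4) : car N (opp i) = -car N i := by
  fin_cases i <;> simp [car, opp, dir, sgn]

theorem fsa_osc (ν : ℝ) (p : V) (hp : Rl p) (N : ℤ) (j : Fin 2) (k : Z2) :
    osc ν p N j (-k) = (starRingEnd ℂ) (osc ν p N j k) := by
  have key : ∀ i : Fin 4, sh (car N (opp i)) (pro ν p (opp i)) j (-k) =
      (starRingEnd ℂ) (sh (car N i) (pro ν p i) j k) := by
    intro i
    unfold sh
    rw [fsa_car, ← fsa_pro ν p hp]
    congr 1
    abel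
  have k0 := key 0
  have k1 := key 1
  have k2 := key 2
  have k3 := key 3
  have o0 : opp 0 = 1 := rfl
  have o1 : opp 1 = 0 := rfl
  have o2 : opp 2 = 3 := rfl
  have o3 : opp 3 = 2 := rfl
  rw [o0] at k0
  rw [o1] at k1
  rw [o2] at k2
  rw [o3] at k3
  unfold osc
  rw [Fin.sum_univ_four, Fin.sum_univ_four, k0, k1, k2, k3]
  simp only [map_add]
  ring

theorem fsa_thm (h1 : FSBStmt) : FSAStmt := by
  obtain ⟨_, _, _, _, f5, f6, f7⟩ := h1
  intro ν M p n θ hM hp
  have hp' : Fs ((n : ℝ) ^ 2 + M) p := f5 M _ p hM (by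
    have : (0 : ℝ) ≤ (n : ℝ) ^ 2 := by positivity
    linarith) hp
  have ho : Fs ((n : ℝ) ^ 2 + M) (osc ν p ((n : ℤ) ^ 2)) := by
    intro j k hk
    unfold osc
    refine Finset.sum_eq_zero fun i _ => ?_
    have h2 := f7 M (car ((n : ℤ) ^ 2) i) (pro ν p i) hM (f6 M ν p hM hp i)
    rw [fsa_sq_car] at h2
    exact h2 j k hk
  refine ⟨?_, ?_, ho, ?_⟩
  · intro j k hk
    unfold apx
    rw [hp' j k hk, ho j k hk]
    ring
  · intro j k hk
    unfold frc
    rw [hp' j k hk, ho j k hk]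
    ring
  · intro hr j k
    unfold apx
    rw [hr j k, fsa_osc ν p hr]
    simp only [map_add, map_mul, Complex.conj_ofReal]

end HB
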