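import Pool.Agent.H61.HB.Stmts2

/-!
# Board hbg, row MNW: the means
-/

set_option autoImplicit false

namespace HB

namespace MNW

theorem cs (f g : Z2 → ℝ) (hf : ∀ k, 0 ≤ f k) (hg : ∀ k, 0 ≤ g k)
    (hf2 : Summable fun k => f k ^ 2) (hg2 : Summable fun k => g k ^ 2) :
    (Summable fun k => f k * g k) ∧
      ∑' k, f k * g k ≤ √(∑' k, f k ^ 2) * √(∑' k, g k ^ 2) := by
  have h := Real.summable_and_inner_le_Lp_mul_Lq_tsum_of_nonneg (p := 2) (q := 2)
    Real.HolderConjugate.two_two hf hg (by simpa using hf2) (by simpa using hg2)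
  refine ⟨h.1, h.2.trans (le_of_eq ?_)⟩
  rw [Real.sqrt_eq_rpow, Real.sqrt_eq_rpow]
  simp only [Real.rpow_two]

theorem sq_nonneg' (k : Z2) : 0 ≤ sq k := by
  unfold sq
  positivity

theorem sq_neg (k : Z2) : sq (-k) = sq k := by
  unfold sq
  simp

theorem co_le (i : Fin 2) (l : Z2) : |co i (0 - l)| ≤ √(sq l) := by
  apply Real.abs_le_sqrt
  unfold co sq
  split_ifs
  · simp only [zero_sub, Prod.fst_neg, Int.cast_neg, neg_sq]
    nlinarith [_root_.sq_nonneg (l.2 : ℝ)]
  · simp only [zero_sub, Prod.snd_neg, Int.cast_neg, neg_sq]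
    nlinarith [_root_.sq_nonneg (l.1 : ℝ)]

theorem flS_nonneg (f : Z2 → ℂ) : 0 ≤ flS f := tsum_nonneg fun _ => by positivity

theorem grS_nonneg (f : Z2 → ℂ) : 0 ≤ grS f :=
  tsum_nonneg fun k => mul_nonneg (sq_nonneg' k) (by positivity)

theorem flS_le (z : V) (i : Fin 2) : flS (z i) ≤ flu z := by
  unfold flu
  exact Finset.single_le_sum (f := fun j => flS (z j)) (fun j _ => flS_nonneg _)
    (Finset.mem_univ i)

theorem grS_le (z : V) (i : Fin 2) : grS (z i) ≤ grd z := by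
  unfold grd
  exact Finset.single_le_sum (f := fun j => grS (z j)) (fun j _ => grS_nonneg _)
    (Finset.mem_univ i)

theorem dot0 (hGRF : GRFStmt) (z : V) (b : Z2 → ℂ) (hz : Mem 2 z) (hb : MemS 2 b) :
    ‖dot z b 0‖ ≤ 2 * (√(flu z) * √(grS b)) := by
  have hb2 : Summable (fun k => sq k * ‖b k‖ ^ 2) := (hGRF.1 b hb).2.1
  set g : Z2 → ℝ := fun l => √(sq l) * ‖b (-l)‖ with hg
  have hg2 : (fun l => g l ^ 2) = (fun k => sq k * ‖b k‖ ^ 2) ∘ (Equiv.neg Z2) := by
    funext l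
    simp only [hg, Function.comp, Equiv.neg_apply]
    rw [mul_pow, Real.sq_sqrt (sq_nonneg' l), sq_neg]
  have hgs : Summable (fun l => g l ^ 2) := by
    rw [hg2]
    exact (Equiv.neg Z2).summable_iff.2 hb2
  have hgt : ∑' l, g l ^ 2 = grS b := by
    have h1 : ∑' l, g l ^ 2 = ∑' l, ((fun k => sq k * ‖b k‖ ^ 2) ∘ (Equiv.neg Z2)) l := by
      rw [hg2]
    rw [h1]
    exact (Equiv.neg Z2).tsum_eq (fun k => sq k * ‖b k‖ ^ 2)
  have hi : ∀ i : Fin 2, (Summable fun l => ‖off (z i) l‖ * g l) ∧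
      ∑' l, ‖off (z i) l‖ * g l ≤ √(flu z) * √(grS b) := by
    intro i
    have h1 := cs (fun l => ‖off (z i) l‖) g (fun _ => norm_nonneg _)
      (fun l => mul_nonneg (Real.sqrt_nonneg _) (norm_nonneg _))
      ((hGRF.1 (z i) (hz i)).2.2.2.2.1) hgs
    refine ⟨h1.1, h1.2.trans ?_⟩
    rw [hgt]
    exact mul_le_mul_of_nonneg_right (Real.sqrt_le_sqrt (flS_le z i)) (Real.sqrt_nonneg _)
  have hsum : HasSum (fun l => ∑ i : Fin 2, ‖off (z i) l‖ * g l)
      (∑ i : Fin 2, ∑' l, ‖off (z i) l‖ * g l) :=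
    hasSum_sum fun i _ => (hi i).1.hasSum
  have h2 : ‖dot z b 0‖ ≤ ∑ i : Fin 2, ∑' l, ‖off (z i) l‖ * g l := by
    unfold dot
    refine tsum_of_norm_bounded hsum fun l => ?_
    unfold trm
    refine (norm_sum_le _ _).trans (Finset.sum_le_sum fun i _ => ?_)
    rw [norm_mul, norm_mul, norm_mul, Complex.norm_I, one_mul, Complex.norm_real,
      Real.norm_eq_abs, zero_sub]
    by_cases hl : l = 0
    · subst hl
      have h3 : co i (-0 : Z2) = 0 := by
        unfold co
        simp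
      rw [h3, abs_zero, mul_zero, zero_mul]
      exact mul_nonneg (norm_nonneg _) (mul_nonneg (Real.sqrt_nonneg _) (norm_nonneg _))
    · have h3 : off (z i) l = z i l := by
        unfold off
        rw [if_neg hl]
      have h4 := co_le i l
      rw [zero_sub] at h4
      rw [h3, hg, mul_assoc]
      exact mul_le_mul_of_nonneg_left (mul_le_mul_of_nonneg_right h4 (norm_nonneg _))
        (norm_nonneg _)
  refine h2.trans ?_
  rw [Fin.sum_univ_two]
  linarith [(hi 0).2, (hi 1).2]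

theorem mu_le (w : V) (j : Fin 2) : ‖w j 0‖ ≤ √(mu w) := by
  rw [← Real.sqrt_sq (norm_nonneg (w j 0))]
  apply Real.sqrt_le_sqrt
  unfold mu
  exact Finset.single_le_sum (f := fun j => ‖w j 0‖ ^ 2) (fun j _ => by positivity)
    (Finset.mem_univ j)

end MNW

open MNW in
/-- Row MNW. -/
theorem mnw_thm (hGRF : GRFStmt) (hLIN : LINStmt) (hMMB : MMBStmt) : MNWStmt := by
  refine ⟨4, by norm_num, fun u v hu hv => ?_⟩
  obtain ⟨hl1, hl2, -, -⟩ := hLIN
  obtain ⟨-, -, hS, -, -, hV⟩ := hMMB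
  have hw : Mem 2 (v - u) := (hV 2 v u hv hu).1
  set w : V := v - u with hwdef
  have hdec : ∀ j : Fin 2, adv v v j 0 - adv u u j 0 =
      dot w (w j) 0 + dot w (u j) 0 + dot u (w j) 0 := by
    intro j
    have h1 := congrFun (hl1 v u (v j) hv hu (hv j)) 0
    have h2 := congrFun (hl2 u (v j) (u j) hu (hv j) (hu j)) 0
    have h3 := congrFun (hl2 w (v j) (u j) hw (hv j) (hu j)) 0
    rw [← hwdef] at h1
    have h4 : v j - u j = w j := rfl
    rw [h4] at h2 h3
    simp only [Pi.sub_apply] at h1 h2 h3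
    unfold adv
    linear_combination -h3 - h1 - h2
  have hj : ∀ j : Fin 2, |((starRingEnd ℂ) (w j 0) * (adv v v j 0 - adv u u j 0)).re| ≤
      √(mu w) * (2 * (√(flu w) * √(grd w)) + 2 * (√(flu w) * √(grd u)) +
        2 * (√(flu u) * √(grd w))) := by
    intro j
    refine (Complex.abs_re_le_norm _).trans ?_
    rw [norm_mul, RCLike.norm_conj, hdec j]
    refine mul_le_mul (mu_le w j) ?_ (norm_nonneg _) (Real.sqrt_nonneg _)
    refine (norm_add₃_le).trans (add_le_add (add_le_add ?_ ?_) ?_)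
    · refine (dot0 hGRF w (w j) hw (hw j)).trans ?_
      exact mul_le_mul_of_nonneg_left (mul_le_mul_of_nonneg_left
        (Real.sqrt_le_sqrt (grS_le w j)) (Real.sqrt_nonneg _)) (by norm_num)
    · refine (dot0 hGRF w (u j) hw (hu j)).trans ?_
      exact mul_le_mul_of_nonneg_left (mul_le_mul_of_nonneg_left
        (Real.sqrt_le_sqrt (grS_le u j)) (Real.sqrt_nonneg _)) (by norm_num)
    · refine (dot0 hGRF u (w j) hu (hw j)).trans ?_
      exact mul_le_mul_of_nonneg_left (mul_le_mul_of_nonneg_left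
        (Real.sqrt_le_sqrt (grS_le w j)) (Real.sqrt_nonneg _)) (by norm_num)
  refine (Finset.abs_sum_le_sum_abs _ _).trans ?_
  rw [Fin.sum_univ_two]
  have h0 := hj 0
  have h1 := hj 1
  calc _ ≤ √(mu w) * (2 * (√(flu w) * √(grd w)) + 2 * (√(flu w) * √(grd u)) +
        2 * (√(flu u) * √(grd w))) + √(mu w) * (2 * (√(flu w) * √(grd w)) +
        2 * (√(flu w) * √(grd u)) + 2 * (√(flu u) * √(grd w))) := add_le_add h0 h1
    _ = _ := by ring

end HB
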