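import Pool.Agent.H61.HB.Stmts

/-!
# Board hbg, row STB: stability on `[0,T]`
-/

set_option autoImplicit false

namespace HB

theorem stb_thm (hLOC : LOCStmt) (hDIF : DIFStmt) (hGLU : GLUStmt) (hRES : RESStmt)
    (hCON : CONStmt) (hMMB : MMBStmt) : STBStmt := by
  intro ν s T u hν hs hT hu
  obtain ⟨hres, hshift, -, hconst⟩ := hRES
  obtain ⟨-, -, -, hnn, -, hadd⟩ := hMMB
  -- a bound for `u`
  obtain ⟨B, hB⟩ : ∃ B : ℝ, ∀ t ∈ Set.Icc 0 T, nsq s (u t) ≤ B := by
    obtain ⟨C, hC⟩ := isCompact_Icc.bddAbove_image (hCON s T u hu.cts).2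
    exact ⟨C, fun t ht => hC ⟨t, ht, rfl⟩⟩
  have hB0 : 0 ≤ B := (hnn s (u 0)).trans (hB 0 ⟨le_rfl, hT⟩)
  obtain ⟨τ, hτ, hloc⟩ := hLOC ν s (2 * B + 2) hν hs (by linarith)
  obtain ⟨K₁, hK₁, hdif⟩ := hDIF ν s τ (4 * (2 * B + 2) + 4) hν hs hτ.le (by linarith)
  set N : ℕ := ⌈T / τ⌉₊ + 1 with hN
  have hN0 : (0 : ℝ) < N := by rw [hN]; push_cast; positivity
  set h : ℝ := T / N with hh
  have hh0 : 0 ≤ h := div_nonneg hT hN0.le
  have hNh : (N : ℝ) * h = T := by rw [hh]; field_simp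
  have hhτ : h ≤ τ := by
    rw [hh, div_le_iff₀ hN0]
    have h1 : T / τ ≤ N := by
      rw [hN]
      push_cast
      have := Nat.le_ceil (T / τ)
      linarith
    rw [div_le_iff₀ hτ] at h1
    linarith
  have main : ∀ n : ℕ, n ≤ N → ∃ δ K : ℝ, 0 < δ ∧ 0 ≤ K ∧ ∀ v₀ : V, Mem s v₀ →
      nsq s (v₀ - u 0) < δ → ∃ v : ℝ → V, Sol ν s (n * h) v ∧ v 0 = v₀ ∧
        nsq s (v (n * h) - u (n * h)) ≤ K * nsq s (v₀ - u 0) ∧
        (Rl v₀ → ∀ t ∈ Set.Icc 0 (n * h), Rl (v t)) := by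
    intro n
    induction n with
    | zero =>
      intro _
      refine ⟨1, 1, one_pos, zero_le_one, fun v₀ hv₀ _ => ⟨fun _ => v₀, ?_, rfl, ?_, ?_⟩⟩
      · rw [Nat.cast_zero, zero_mul]
        exact hconst ν s v₀ hv₀
      · rw [Nat.cast_zero, zero_mul, one_mul]
      · intro h1 t _
        exact h1
    | succ n ih =>
      intro hn
      obtain ⟨δ, K, hδ, hK, hstep⟩ := ih (by omega)
      have hK1 : 0 < K + 1 := by linarith
      refine ⟨min δ (1 / (K + 1)), K₁ * K, lt_min hδ (by positivity), mul_nonneg hK₁ hK, ?_⟩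
      intro v₀ hv₀ hd
      obtain ⟨v, hv, hv0, hvn, hvR⟩ := hstep v₀ hv₀ (lt_of_lt_of_le hd (min_le_left _ _))
      have hnh : 0 ≤ (n : ℝ) * h := by positivity
      have hcast : ((n + 1 : ℕ) : ℝ) * h = n * h + h := by push_cast; ring
      have hle : (n : ℝ) * h + h ≤ T := by
        rw [← hcast, ← hNh]
        exact mul_le_mul_of_nonneg_right (by exact_mod_cast hn) hh0
      have hmem : (n : ℝ) * h ∈ Set.Icc 0 T := ⟨hnh, by linarith⟩
      have hmemv : (n : ℝ) * h ∈ Set.Icc 0 ((n : ℝ) * h) := ⟨hnh, le_rfl⟩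
      have hv1 : Mem s (v (n * h)) := hv.cts.1 _ hmemv
      have hu1 : Mem s (u (n * h)) := hu.cts.1 _ hmem
      have hu0 : Mem s (u 0) := hu.cts.1 _ ⟨le_rfl, hT⟩
      have hsmall : nsq s (v (n * h) - u (n * h)) ≤ 1 := by
        refine hvn.trans ?_
        have h1 : nsq s (v₀ - u 0) ≤ 1 / (K + 1) := (lt_of_lt_of_le hd (min_le_right _ _)).le
        have h2 : K * nsq s (v₀ - u 0) ≤ K * (1 / (K + 1)) := mul_le_mul_of_nonneg_left h1 hK
        refine h2.trans ?_
        rw [mul_one_div, div_le_one hK1]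
        linarith
      have hbd : nsq s (v (n * h)) ≤ 2 * B + 2 := by
        have h1 := (hadd s (v (n * h) - u (n * h)) (u (n * h))
          ((hadd s _ _ hv1 hu1).1) hu1).2.2.2
        rw [sub_add_cancel] at h1
        have h2 := hB _ hmem
        linarith
      obtain ⟨w, hw, hw0, hwb, hwR, -⟩ := hloc (v (n * h)) hv1 hbd
      have hwh : Sol ν s h w := hres ν s τ h w hhτ hw
      have hglue := hGLU ν s (n * h) h v w hnh hh0 hv hwh hw0
      have hval : ∀ r : ℝ, 0 ≤ r →
          (fun t => if t ≤ (n : ℝ) * h then v t else w (t - n * h)) (n * h + r) = w r := by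
        intro r hr
        simp only
        rcases hr.eq_or_lt with h1 | h1
        · rw [← h1, add_zero, if_pos le_rfl, hw0]
        · rw [if_neg (by linarith), add_sub_cancel_left]
      refine ⟨fun t => if t ≤ (n : ℝ) * h then v t else w (t - n * h), ?_, ?_, ?_, ?_⟩
      · rw [hcast]
        exact hglue
      · simp only
        rw [if_pos hnh, hv0]
      · rw [hcast, hval h hh0]
        have hush : Sol ν s h (fun t => u (n * h + t)) :=
          hshift ν s (n * h) h u hnh (hres ν s T (n * h + h) u hle hu)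
        have h1 := hdif h ⟨hh0, hhτ⟩ w (fun t => u (n * h + t)) hwh hush (by
          intro t ht
          refine ⟨hwb t ⟨ht.1, ht.2.trans hhτ⟩, ?_⟩
          have h2 := hB (n * h + t) ⟨by linarith [ht.1], by linarith [ht.2]⟩
          linarith) h ⟨hh0, le_rfl⟩
        simp only [add_zero] at h1
        rw [hw0] at h1
        refine h1.trans ?_
        rw [mul_assoc]
        exact mul_le_mul_of_nonneg_left hvn hK₁
      · intro hR t ht
        rw [hcast] at ht
        simp only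
        split_ifs with h1
        · exact hvR hR t ⟨ht.1, h1⟩
        · rw [not_le] at h1
          exact hwR (hvR hR _ hmemv) (t - n * h) ⟨by linarith, by linarith [ht.2]⟩
  obtain ⟨δ, K, hδ, hK, hfin⟩ := main N le_rfl
  rw [hNh] at hfin
  exact ⟨δ, K, hδ, hK, hfin⟩

end HB
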